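import Mathlib
import Pool.Agent.H10.Frob

namespace Pool.Agent.Results.MP_9320d9_al.EPPO

open Finset Pool.Agent.H10.Frob

/-- The number of elements of order exactly `d`. -/
noncomputable def N (G : Type*) [Group G] (d : ℕ) : ℕ := Nat.card {g : G // orderOf g = d}

/-- Condition (∗). -/
def Star (G : Type*) [Group G] : Prop :=
  ∀ d : ℕ, 1 < d → d ∣ Nat.card G → ∀ H : Subgroup G, Nat.gcd (Nat.card H) d = 1 →
    Nat.card H ∣ N G d

theorem result (G : Type*) [Group G] [Finite G] (h : Star G) (g : G) :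
    ∃ p k : ℕ, p.Prime ∧ orderOf g = p ^ k := by
  classical
  have := Fintype.ofFinite G
  let E : Finset G := {g | ∃ p k : ℕ, p.Prime ∧ orderOf g = p ^ k}
  have hE : Nat.card G ∣ #E := by
    refine (Nat.dvd_iff_prime_pow_dvd_dvd _ _).2 fun p k hp hk => ?_
    have := Fact.mk hp
    obtain ⟨H, hH⟩ := Sylow.exists_subgroup_card_pow_prime p hk
    rw [← card_filter_add_card_filter_not (s := E) (fun g => g ∈ pel p G)]
    refine dvd_add ?_ ?_
    · refine (frob p _ G rfl k hk).trans (dvd_of_eq (Eq.symm ?_))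
      rw [← Set.ncard_coe_finset]
      congr 1
      ext x
      simp only [E, coe_filter, mem_filter, mem_univ, true_and, Set.mem_ofPred_eq,
        and_iff_right_iff_imp]
      rintro ⟨j, hj⟩
      obtain ⟨i, -, hi⟩ := (Nat.dvd_prime_pow hp).1 (orderOf_dvd_of_pow_eq_one hj)
      exact ⟨p, i, hp, hi⟩
    · rw [card_eq_sum_card_image orderOf]
      refine dvd_sum fun d hd => ?_
      obtain ⟨x, hx, rfl⟩ := mem_image.1 hd
      simp only [E, mem_filter, mem_univ, true_and] at hx
      obtain ⟨⟨q, j, hq, hj⟩, hx⟩ := hx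
      have hne : p ≠ q := by
        rintro rfl
        exact hx ⟨j, hj ▸ pow_orderOf_eq_one x⟩
      have h1 : 1 < orderOf x := by
        refine lt_of_le_of_ne (orderOf_pos x) fun h => hx ⟨0, ?_⟩
        simpa using h.symm
      have := h _ h1 (orderOf_dvd_natCard x) H (by
        rw [hH, hj]
        exact ((Nat.coprime_primes hp hq).2 hne).pow k j)
      rw [hH] at this
      refine this.trans (dvd_of_eq (Eq.symm ?_))
      rw [N, Nat.card_eq_fintype_card, Fintype.card_subtype]
      congr 1
      ext y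
      simp only [E, mem_filter, mem_univ, true_and, and_iff_right_iff_imp]
      intro hy
      refine ⟨⟨q, j, hq, hy.trans hj⟩, fun ⟨i, hi⟩ => hx ⟨i, ?_⟩⟩
      rw [← orderOf_dvd_iff_pow_eq_one] at hi ⊢
      exact hy ▸ hi
  have h1 : (1 : G) ∈ E := by
    simp only [E, mem_filter, mem_univ, true_and]
    exact ⟨2, 0, Nat.prime_two, by simp⟩
  have h2 := Nat.le_of_dvd (card_pos.2 ⟨1, h1⟩) hE
  rw [Nat.card_eq_fintype_card] at h2
  have h3 : g ∈ E := eq_univ_of_card E (le_antisymm (card_le_univ E) h2) ▸ mem_univ g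
  simpa [E] using h3

end Pool.Agent.Results.MP_9320d9_al.EPPO
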